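import Mathlib
import Pool.Agent.H12.Des5b

set_option autoImplicit false

namespace Pool.Agent.Results.MP_c32163_co.Concurrence

open Pool.Agent.H12.Des Pool.Agent.H12.Des5

/-- For each of the A-, D- and E-criteria, an optimal design in D(5,7,2) has a pair with larger
concurrence but no smaller pairwise variance. -/
theorem result :
    (∃ (N : Matrix (Fin 5) (Fin 7) ℕ) (G : Matrix (Fin 5) (Fin 5) ℝ) (i j m n : Fin 5),
      AOpt 2 N ∧ DOpt 2 N ∧ info 2 N * G * info 2 N = info 2 N ∧ i ≠ j ∧ m ≠ n ∧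
      conc N m n < conc N i j ∧ pairVar G m n = pairVar G i j) ∧
    (∃ (N : Matrix (Fin 5) (Fin 7) ℕ) (G : Matrix (Fin 5) (Fin 5) ℝ) (i j m n : Fin 5),
      EOpt 2 N ∧ info 2 N * G * info 2 N = info 2 N ∧ i ≠ j ∧ m ≠ n ∧
      conc N m n < conc N i j ∧ pairVar G m n < pairVar G i j) := by
  constructor
  · refine ⟨N0, !![4/3, 2/3, 1, 1, 0; 2/3, 4/3, 1, 1, 0; 1, 1, 7/4, 5/4, 0; 1, 1, 5/4, 7/4, 0;
      0, 0, 0, 0, 0], 0, 4, 0, 1, ⟨des0, conn0, fun N' h1 h2 => val0.1.le.trans (bounds h1 h2).1⟩,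
      ⟨des0, conn0, fun N' h1 h2 => (bounds h1 h2).2.1.trans val0.2.ge⟩, ?_, by decide, by decide,
      by decide, ?_⟩
    · rw [info_eq des0, show LN N0 = !![3, 0, -1, -1, -1; 0, 3, -1, -1, -1; -1, -1, 3, -1, 0;
        -1, -1, -1, 3, 0; -1, -1, 0, 0, 2] by decide +kernel]
      ext i j
      fin_cases i <;> fin_cases j <;> simp [Matrix.mul_apply, Fin.sum_univ_five] <;> norm_num
    · simp [pairVar, Matrix.mulVec, dotProduct, Fin.sum_univ_five, Pi.single_apply]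
      norm_num
  · refine ⟨N1, !![13/10, 7/10, 11/10, 1, 0; 7/10, 13/10, 9/10, 1, 0; 11/10, 9/10, 17/10, 1, 0;
      1, 1, 1, 2, 0; 0, 0, 0, 0, 0], 1, 3, 0, 1,
      ⟨des1, conn1, fun N' h1 h2 => (bounds h1 h2).2.2.trans val1⟩, ?_, by decide, by decide,
      by decide, ?_⟩
    · rw [info_eq des1, show LN N1 = !![4, 0, -2, -1, -1; 0, 3, -1, -1, -1; -2, -1, 3, 0, 0;
        -1, -1, 0, 2, 0; -1, -1, 0, 0, 2] by decide +kernel]
      ext i j
      fin_cases i <;> fin_cases j <;> simp [Matrix.mul_apply, Fin.sum_univ_five] <;> norm_num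
    · simp [pairVar, Matrix.mulVec, dotProduct, Fin.sum_univ_five, Pi.single_apply]
      norm_num

end Pool.Agent.Results.MP_c32163_co.Concurrence
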